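import Mathlib

open Set Filter Topology Metric UniformSpace

namespace Pool.Agent.Results.MP_856f66_gt.Balls

/-- The closed balls of strictly positive radius, regarded as subsets of `X`. -/
def B0 (X : Type) [MetricSpace X] : Type := {A : Set X // ∃ c r, 0 < r ∧ A = closedBall c r}

/-- The spaces of positive-radius balls, with the Hausdorff distance, are isometric. -/
def BallIso (X Y : Type) [MetricSpace X] [MetricSpace Y] : Prop :=
  ∃ e : B0 X ≃ B0 Y, ∀ A B, hausdorffDist (e A).1 (e B).1 = hausdorffDist A.1 B.1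

variable {X Y Z : Type} [MetricSpace X] [MetricSpace Y] [MetricSpace Z]

lemma BallIso.symm (h : BallIso X Y) : BallIso Y X :=
  let ⟨e, h⟩ := h; ⟨e.symm, fun A B => by rw [← h, e.apply_symm_apply, e.apply_symm_apply]⟩

lemma BallIso.trans (h : BallIso X Y) (k : BallIso Y Z) : BallIso X Z :=
  let ⟨e, h⟩ := h; let ⟨f, k⟩ := k; ⟨e.trans f, fun A B => (k _ _).trans (h A B)⟩

lemma ne (A : B0 X) : A.1.Nonempty :=
  let ⟨_, _, h, e⟩ := A.2; e ▸ nonempty_closedBall.2 h.le
lemma bd (A : B0 X) : Bornology.IsBounded A.1 :=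
  let ⟨_, _, _, e⟩ := A.2; e ▸ isBounded_closedBall

instance [IsUltrametricDist X] : IsUltrametricDist (Completion X) := ⟨fun x y z =>
  Completion.induction_on₃ x y z (isClosed_le (by fun_prop) (by fun_prop)) fun a b c => by
    simpa only [Completion.dist_eq] using IsUltrametricDist.dist_triangle_max a b c⟩

lemma dense [IsUltrametricDist Y] {j : X → Y} (hj : Isometry j) (hd : DenseRange j) :
    BallIso X Y := by
  have k : ∀ c r, 0 < r → closure (j '' closedBall c r) = closedBall (j c) r := fun c r hr => by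
    rw [← hj.preimage_closedBall]
    exact (closure_minimal (image_preimage_subset _ _) isClosed_closedBall).antisymm
      (hd.subset_closure_image_preimage_of_isOpen (IsUltrametricDist.isOpen_closedBall _ hr.ne'))
  refine ⟨.ofBijective (fun A => ⟨closure (j '' A.1), ?_⟩) ⟨?_, ?_⟩, fun A B =>
    hausdorffDist_closure.trans (hausdorffDist_image hj)⟩
  · obtain ⟨c, r, hr, e⟩ := A.2
    exact ⟨j c, r, hr, e ▸ k c r hr⟩
  · rintro ⟨_, c, r, hr, rfl⟩ ⟨_, c', r', hr', rfl⟩ h
    have := congrArg (j ⁻¹' ·.1) h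
    simp only [k c r hr, k c' r' hr', hj.preimage_closedBall] at this
    exact Subtype.ext this
  · rintro ⟨_, c, r, hr, rfl⟩
    obtain ⟨x, hx⟩ := hd.exists_dist_lt c hr
    exact ⟨⟨_, x, r, hr, rfl⟩, Subtype.ext ((k x r hr).trans
      (IsUltrametricDist.closedBall_eq_of_mem (mem_closedBall'.2 hx.le)).symm)⟩

variable [IsUltrametricDist X] [IsUltrametricDist Y]

lemma dl {s : Set X} {c : X} {r : ℝ} (hr : 0 ≤ r) (h : s ⊆ closedBall c r) : diam s ≤ r :=
  diam_le_of_forall_dist_le hr fun _ ha _ hb => (IsUltrametricDist.dist_triangle_max _ c _).trans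
    (max_le (h ha) (mem_closedBall'.1 (h hb)))

lemma eqb (A : B0 X) {y : X} (hy : y ∈ A.1) : A.1 = closedBall y (diam A.1) := by
  refine Subset.antisymm (fun z hz => dist_le_diam_of_mem (bd A) hz hy) ?_
  obtain ⟨_, c, r, hr, rfl⟩ := A
  exact (closedBall_subset_closedBall (dl hr.le le_rfl)).trans
    (IsUltrametricDist.closedBall_eq_of_mem hy).ge

lemma eqd {A B : B0 X} {y : X} (ha : y ∈ A.1) (hb : y ∈ B.1) (h : diam A.1 = diam B.1) : A = B :=
  Subtype.ext (by rw [eqb A ha, eqb B hb, h])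

lemma sub {A B : B0 X} (h : diam (A.1 ∪ B.1) ≤ diam B.1) : A.1 ⊆ B.1 := fun z hz => by
  obtain ⟨y, hy⟩ := ne B
  rw [eqb B hy]
  exact (dist_le_diam_of_mem ((bd A).union (bd B)) (.inl hz) (.inr hy)).trans h

lemma hd {A B : B0 X} (h : A ≠ B) : hausdorffDist A.1 B.1 = diam (A.1 ∪ B.1) := by
  wlog k : ¬ A.1 ⊆ B.1 generalizing A B
  · rw [hausdorffDist_comm, union_comm]
    exact this h.symm fun k' => h (Subtype.ext ((not_not.1 k).antisymm k'))
  refine (hausdorffDist_le_diam (ne A) (bd A) (ne B) (bd B)).antisymm ?_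
  have f := hausdorffEDist_ne_top_of_nonempty_of_bounded (ne A) (ne B) (bd A) (bd B)
  obtain ⟨_, c, r, hr, rfl⟩ := B
  have e : ∀ a ∈ A.1, a ∉ closedBall c r → dist a c ≤ hausdorffDist A.1 (closedBall c r) :=
    fun a ha hb => ((le_infDist (nonempty_closedBall.2 hr.le)).2 fun b h' =>
      (le_max_iff.1 (IsUltrametricDist.dist_triangle_max a b c)).elim id
        fun h => (hb (h.trans h')).elim).trans (infDist_le_hausdorffDist_of_mem ha f)
  obtain ⟨a, ha, hb⟩ := not_subset.1 k
  have e2 := closedBall_subset_closedBall (x := c) ((not_le.1 hb).le.trans (e a ha hb))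
  exact dl hausdorffDist_nonneg (union_subset (fun z hz => by_cases (e2 ·) (e z hz)) e2)

/-- `e` preserves the diameters of unions of distinct balls. -/
def P (e : B0 X → B0 Y) : Prop := ∀ A B, A ≠ B → diam ((e A).1 ∪ (e B).1) = diam (A.1 ∪ B.1)

lemma P.symm {e : B0 X ≃ B0 Y} (h : P e) : P e.symm := fun A B k => by
  rw [← h _ _ (e.symm.injective.ne k), e.apply_symm_apply, e.apply_symm_apply]

lemma beta {e : B0 X → B0 Y} (h : P e) (B : B0 X) :
    ∃ B' : B0 Y, 0 < diam B.1 → diam B'.1 = diam B.1 ∧ (e B).1 ⊆ B'.1 := by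
  by_cases hB : 0 < diam B.1
  swap
  · exact ⟨e B, fun h => (hB h).elim⟩
  obtain ⟨y, hy⟩ := ne (e B)
  obtain ⟨x, hx⟩ := ne B
  let A : B0 X := ⟨_, x, diam B.1 / 2, half_pos hB, rfl⟩
  have a : A ≠ B := fun k => by
    have := dl (half_pos hB).le (congrArg Subtype.val k).ge
    linarith
  have k := h A B a
  rw [union_eq_right.2 (show A.1 ⊆ B.1 by
    rw [eqb B hx]; exact closedBall_subset_closedBall (half_le_self hB.le))] at k
  have s : (e A).1 ∪ (e B).1 ⊆ closedBall y (diam B.1) := fun z hz =>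
    (dist_le_diam_of_mem ((bd _).union (bd _)) hz (.inr hy)).trans k.le
  exact ⟨⟨_, y, _, hB, rfl⟩, fun _ => ⟨(dl hB.le le_rfl).antisymm
    (k.ge.trans (diam_mono s isBounded_closedBall)), subset_union_right.trans s⟩⟩

lemma inv {e : B0 X ≃ B0 Y} (h : P e) {s s' : B0 X} {t : B0 Y} (h1 : diam t.1 = diam s.1)
    (h2 : (e s).1 ⊆ t.1) (h3 : diam s'.1 = diam t.1) (h4 : (e.symm t).1 ⊆ s'.1) : s' = s := by
  obtain ⟨x, hx⟩ := ne (e.symm t)
  refine eqd (h4 hx) ?_ (h3.trans h1)
  by_cases k : e.symm t = s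
  · exact k ▸ hx
  refine sub ?_ hx
  rw [← h _ _ k, e.apply_symm_apply, union_eq_left.2 h2, h1]

/-- Two balls that are at the same distance from every third ball. -/
def R (v v' : B0 X) : Prop := ∀ q, q ≠ v → q ≠ v' → diam (v.1 ∪ q.1) = diam (v'.1 ∪ q.1)

lemma twin {e : B0 X ≃ B0 Y} (h : P e) {s : B0 X} {t : B0 Y} (h1 : diam t.1 = diam s.1)
    (h2 : (e s).1 ⊆ t.1) : R (e s) t := fun q k _ => by
  obtain ⟨q, rfl⟩ := e.surjective q
  have a : diam t.1 ≤ diam ((e s).1 ∪ (e q).1) := by
    rw [h s q fun k' => k (k' ▸ rfl), h1]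
    exact diam_mono subset_union_left ((bd _).union (bd _))
  refine (diam_mono (union_subset_union_left _ h2) ((bd _).union (bd _))).antisymm ?_
  obtain ⟨y, hy⟩ := ne (e s)
  exact dl (c := y) diam_nonneg (union_subset
    (fun z hz => (dist_le_diam_of_mem (bd _) hz (h2 hy)).trans a)
    fun z hz => dist_le_diam_of_mem ((bd _).union (bd _)) (.inr hz) (.inl hy))

lemma isoR {τ : B0 X → B0 X} (hi : Function.Injective τ) (h : ∀ v, R v (τ v)) : P τ := by
  intro v w k
  have k' := hi.ne k
  by_cases a : w = τ v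
  · by_cases b : τ w = v
    · rw [← a, b, union_comm]
    · rw [← h v _ b k'.symm, union_comm, ← h w v k (Ne.symm b), union_comm]
  · rw [h v w k.symm a, union_comm _ w.1, h w _ (Ne.symm a) k', union_comm]

lemma fix {e : B0 X ≃ B0 Y} (h : P e) : ∃ f : B0 X → B0 Y, Function.Surjective f ∧ P f ∧
    ∀ A, diam (f A).1 = diam A.1 := by
  classical
  choose β hβ using beta h
  choose γ hγ using beta h.symm
  have i1 : ∀ s, 0 < diam s.1 → γ (β s) = s := fun s hs =>
    have a := hβ s hs
    have b := hγ (β s) (a.1 ▸ hs)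
    inv h a.1 a.2 b.1 b.2
  have i2 : ∀ t, 0 < diam t.1 → β (γ t) = t := fun t ht =>
    have a := hγ t ht
    have b := hβ (γ t) (a.1 ▸ ht)
    inv h.symm a.1 a.2 b.1 b.2
  have c : ∀ s, 0 < diam s.1 → 0 < diam (e s).1 → e s = β s := fun s hs ht => by
    obtain ⟨y, hy⟩ := ne (e s)
    have a := hβ s hs
    have b := hγ _ ht
    rw [e.symm_apply_apply] at b
    exact eqd hy (a.2 hy) ((diam_mono a.2 (bd _)).antisymm
      (a.1.trans_le ((diam_mono b.2 (bd _)).trans_eq b.1)))
  let τ : B0 Y → B0 Y := fun v =>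
    if 0 < diam (e.symm v).1 then β (e.symm v) else if 0 < diam v.1 then e (γ v) else v
  have t1 : ∀ s, 0 < diam s.1 → τ (e s) = β s := fun s hs => by simp [τ, hs]
  have t2 : ∀ v, ¬ 0 < diam (e.symm v).1 → 0 < diam v.1 → τ v = e (γ v) := fun v a b => by
    simp only [τ, a, b, if_true, if_false]
  have t3 : ∀ v, ¬ 0 < diam (e.symm v).1 → ¬ 0 < diam v.1 → τ v = v := fun v a b => by
    simp only [τ, a, b, if_false]
  have all : ∀ s, τ (τ (e s)) = e s ∧ R (e s) (τ (e s)) ∧ diam (τ (e s)).1 = diam s.1 := fun s => by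
    by_cases hs : 0 < diam s.1
    · have a := hβ s hs
      rw [t1 s hs]
      refine ⟨?_, twin h a.1 a.2, a.1⟩
      by_cases k : 0 < diam (e.symm (β s)).1
      · have b := c _ k (by rw [e.apply_symm_apply, a.1]; exact hs)
        have d := congrArg γ b
        rw [e.apply_symm_apply, i1 s hs, i1 _ k] at d
        have f : β s = e s := by rw [← e.apply_symm_apply (β s), ← d]
        rw [f, t1 s hs, f]
      · rw [t2 _ k (a.1 ▸ hs), i1 s hs]
    have hs' : ¬ 0 < diam (e.symm (e s)).1 := by rwa [e.symm_apply_apply]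
    have z : diam s.1 = 0 := (not_lt.1 hs).antisymm diam_nonneg
    by_cases ht : 0 < diam (e s).1
    · have a := hγ _ ht
      have a' : 0 < diam (γ (e s)).1 := a.1 ▸ ht
      have b := hβ _ a'
      rw [t2 _ hs' ht, t1 _ a', i2 _ ht]
      rw [i2 _ ht] at b
      refine ⟨rfl, fun q k k' => (twin h b.1 b.2 q k' k).symm, ((not_lt.1 fun k => ?_).antisymm
        diam_nonneg).trans z.symm⟩
      have := c _ a' k
      rw [i2 _ ht, e.apply_eq_iff_eq] at this
      exact hs (this ▸ a')
    · rw [t3 _ hs' ht, t3 _ hs' ht]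
      exact ⟨rfl, fun _ _ _ => rfl, ((not_lt.1 ht).antisymm diam_nonneg).trans z.symm⟩
  have iv : Function.Involutive τ := e.surjective.forall.2 fun s => (all s).1
  exact ⟨τ ∘ e, iv.surjective.comp e.surjective, fun A B k => (isoR iv.injective
    (e.surjective.forall.2 fun s => (all s).2.1) _ _ (e.injective.ne k)).trans (h A B k),
    fun s => (all s).2.2⟩

lemma main [CompleteSpace X] [CompleteSpace Y] (h : BallIso X Y) : Nonempty (X ≃ᵢ Y) := by
  obtain ⟨e, he⟩ := h
  obtain ⟨F, Fs, FP, Fd⟩ := fix (e := e) fun A B k => by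
    rw [← hd k, ← hd (e.injective.ne k), he]
  have mo : ∀ A B : B0 X, A.1 ⊆ B.1 → (F A).1 ⊆ (F B).1 := fun A B k => by
    by_cases a : A = B
    · rw [a]
    · exact sub (by rw [FP A B a, union_eq_right.2 k, Fd])
  let b : X → ∀ r : ℝ, 0 < r → B0 X := fun x r hr => ⟨_, x, r, hr, rfl⟩
  have bl : ∀ x r hr, diam (F (b x r hr)).1 ≤ r := fun x r hr => Fd _ ▸ dl hr.le le_rfl
  have : ∀ x, ∃ y, ∀ r hr, y ∈ (F (b x r hr)).1 := fun x => by
    obtain ⟨y, hy⟩ := nonempty_iInter_of_nonempty_biInter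
      (s := fun n : ℕ => (F (b x (1 / (n + 1)) Nat.one_div_pos_of_nat)).1)
      (fun n => by obtain ⟨_, _, _, e⟩ := (F (b x (1 / (n + 1)) Nat.one_div_pos_of_nat)).2
                   exact e ▸ isClosed_closedBall) (fun n => bd _)
      (fun N => (ne _).mono (subset_iInter₂ fun n hn =>
        mo (b x _ Nat.one_div_pos_of_nat) _ (closedBall_subset_closedBall (Nat.one_div_le_one_div hn))))
      (squeeze_zero (fun _ => diam_nonneg) (fun n => bl _ _ Nat.one_div_pos_of_nat) tendsto_one_div_add_atTop_nhds_zero_nat)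
    refine ⟨y, fun r hr => ?_⟩
    obtain ⟨n, hn⟩ := exists_nat_one_div_lt hr
    exact mo _ _ (closedBall_subset_closedBall hn.le) (mem_iInter.1 hy n)
  choose f hf using this
  have fi : Isometry f := Isometry.of_dist_eq fun x x' => by
    rcases eq_or_ne x x' with rfl | k
    · simp
    have d := half_pos (dist_pos.2 k)
    have n : b x _ d ≠ b x' _ d := fun a => by
      have : x ∈ (b x' _ d).1 := a ▸ mem_closedBall_self d.le
      have : dist x x' ≤ _ := this
      linarith
    have a := FP _ _ n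
    rw [show diam ((b x _ d).1 ∪ (b x' _ d).1) = dist x x' from (dl (c := x) dist_nonneg (union_subset
      (closedBall_subset_closedBall (by linarith)) fun z hz =>
        (IsUltrametricDist.dist_triangle_max z x' x).trans (max_le (le_trans hz (by linarith))
        (dist_comm _ _).le))).antisymm (dist_le_diam_of_mem ((bd (b x _ d)).union (bd (b x' _ d)))
        (.inl (mem_closedBall_self d.le)) (.inr (mem_closedBall_self d.le)))] at a
    refine (a ▸ dist_le_diam_of_mem ((bd _).union (bd _)) (.inl (hf x _ d)) (.inr (hf x' _ d))).antisymm ?_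
    have := a ▸ dl (c := f x') (r := max (dist x x' / 2) (dist (f x) (f x'))) (by positivity)
      (union_subset (fun z hz => (IsUltrametricDist.dist_triangle_max z (f x) _).trans (max_le_max
        ((dist_le_diam_of_mem (bd _) hz (hf x _ d)).trans (bl _ _ d)) le_rfl))
        fun z hz => le_max_of_le_left ((dist_le_diam_of_mem (bd _) hz (hf x' _ d)).trans (bl _ _ d)))
    exact (le_max_iff.1 this).elim (fun h => by linarith) id
  refine ⟨⟨.ofBijective f ⟨fi.injective, range_eq_univ.1 (fi.isClosedEmbedding.isClosed_range.closure_eq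
    ▸ eq_univ_of_forall fun y => mem_closure_range_iff.2 fun r hr => ?_)⟩, fi⟩⟩
  obtain ⟨A, hA⟩ := Fs ⟨_, y, r / 2, half_pos hr, rfl⟩
  obtain ⟨a, ha⟩ := ne A
  have : A.1 ⊆ (b a _ (half_pos hr)).1 := by
    rw [eqb A ha, ← Fd, hA]
    exact closedBall_subset_closedBall (dl (half_pos hr).le le_rfl)
  have hy : y ∈ (F A).1 := by rw [hA]; exact mem_closedBall_self (half_pos hr).le
  exact ⟨a, ((dist_le_diam_of_mem (bd _)
    (mo _ _ this hy) (hf a _ (half_pos hr))).trans (bl _ _ (half_pos hr))).trans_lt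
    (half_lt_self hr)⟩

theorem result (X Y : Type) [MetricSpace X] [MetricSpace Y] [IsUltrametricDist X]
    [IsUltrametricDist Y] [Nonempty X] [Nonempty Y] :
    Nonempty (Completion X ≃ᵢ Completion Y) ↔ BallIso X Y :=
  have a := dense (Completion.coe_isometry (α := X)) Completion.denseRange_coe
  have b := dense (Completion.coe_isometry (α := Y)) Completion.denseRange_coe
  ⟨fun ⟨e⟩ => (a.trans (dense e.isometry e.surjective.denseRange)).trans b.symm,
    fun h => main ((a.symm.trans h).trans b)⟩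

end Pool.Agent.Results.MP_856f66_gt.Balls
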